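import Mathlib
import Pool.Agent.W848.N2.Stm

/-! Project N2 (helper848), part ROT: rotation of a word of net length 2. -/

set_option autoImplicit false

namespace Pool.Agent.W287.N2

open Finset
open Pool.Agent.W848.N2

lemma ht_succ {k : ℕ} (d : Fin k → Bool) (n : ℕ) (hn : n < k) :
    ht d (n + 1) = ht d n + sg (d ⟨n, hn⟩) := by
  unfold ht
  have h1 : ∀ i : Fin k, (if i.val < n + 1 then sg (d i) else 0) =
      (if i.val < n then sg (d i) else 0) + (if i = ⟨n, hn⟩ then sg (d i) else 0) := by
    intro i
    by_cases h : i.val < n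
    · have h2 : i ≠ ⟨n, hn⟩ := by
        intro h3
        rw [h3] at h
        exact lt_irrefl _ h
      rw [if_pos h, if_pos (by omega), if_neg h2, add_zero]
    · by_cases h3 : i.val = n
      · have h2 : i = ⟨n, hn⟩ := Fin.ext h3
        rw [if_neg h, if_pos (by omega), if_pos h2, zero_add]
      · have h2 : i ≠ ⟨n, hn⟩ := by
          intro h4
          exact h3 (by rw [h4])
        rw [if_neg h, if_neg (by omega), if_neg h2, zero_add]
  rw [Finset.sum_congr rfl (fun i _ => h1 i), Finset.sum_add_distrib, Finset.sum_ite_eq',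
    if_pos (Finset.mem_univ _)]

lemma ht_zero {k : ℕ} (d : Fin k → Bool) : ht d 0 = 0 := by
  unfold ht
  simp

lemma ht_full {k : ℕ} (d : Fin k → Bool) : ht d k = ∑ i, sg (d i) := by
  unfold ht
  apply Finset.sum_congr rfl
  intro i _
  rw [if_pos i.isLt]

/-- the rotated word -/
def rot {k : ℕ} (d : Fin k → Bool) (p : Fin k) (i : Fin k) : Bool :=
  if h : i.val + p.val < k then d ⟨i.val + p.val, h⟩ else d ⟨i.val + p.val - k, by omega⟩

lemma ht_rot {k : ℕ} (d : Fin k → Bool) (p : Fin k) (hd : ∑ i, sg (d i) = 2) (j : ℕ) :
    j ≤ k → (p.val + j ≤ k → ht (rot d p) j = ht d (p.val + j) - ht d p.val) ∧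
      (k ≤ p.val + j → ht (rot d p) j = ht d (p.val + j - k) + 2 - ht d p.val) := by
  have hp := p.isLt
  have hk := ht_full d
  rw [hd] at hk
  induction j with
  | zero =>
    intro _
    constructor
    · intro _
      rw [ht_zero, add_zero, sub_self]
    · intro h
      omega
  | succ j ih =>
    intro hj
    obtain ⟨h1, h2⟩ := ih (by omega)
    have h3 := ht_succ (rot d p) j (by omega)
    constructor
    · intro h4
      have h5 : rot d p ⟨j, by omega⟩ = d ⟨p.val + j, by omega⟩ := by
        unfold rot
        rw [dif_pos (show j + p.val < k by omega)]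
        congr 1
        exact Fin.ext (Nat.add_comm _ _)
      rw [h3, h1 (by omega), h5, ← add_assoc, ht_succ d (p.val + j) (by omega)]
      ring
    · intro h4
      by_cases h6 : k ≤ p.val + j
      · have h5 : rot d p ⟨j, by omega⟩ = d ⟨p.val + j - k, by omega⟩ := by
          unfold rot
          rw [dif_neg (show ¬ j + p.val < k by omega)]
          congr 1
          apply Fin.ext
          show j + p.val - k = p.val + j - k
          omega
        have h7 : p.val + (j + 1) - k = (p.val + j - k) + 1 := by omega
        rw [h3, h2 h6, h5, h7, ht_succ d (p.val + j - k) (by omega)]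
        ring
      · have h7 : p.val + (j + 1) = k := by omega
        have h5 : rot d p ⟨j, by omega⟩ = d ⟨p.val + j, by omega⟩ := by
          unfold rot
          rw [dif_pos (show j + p.val < k by omega)]
          congr 1
          exact Fin.ext (Nat.add_comm _ _)
        have h8 := ht_succ d (p.val + j) (by omega)
        have h9 : p.val + j + 1 = k := by omega
        rw [h9, hk] at h8
        rw [h3, h1 (by omega), h5, h7, Nat.sub_self, ht_zero]
        linarith

/-- the rotation of the positions -/
def rr {k : ℕ} (p : Fin k) (i : Fin k) : Fin k :=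
  if h : p.val ≤ i.val then ⟨i.val - p.val, by omega⟩ else ⟨i.val + k - p.val, by omega⟩

lemma rr_val {k : ℕ} (p i : Fin k) :
    (rr p i).val = if p.val ≤ i.val then i.val - p.val else i.val + k - p.val := by
  unfold rr
  split_ifs <;> rfl

lemma rr_inj {k : ℕ} (p : Fin k) : Function.Injective (rr p) := by
  intro a b h
  have h1 := congrArg Fin.val h
  rw [rr_val, rr_val] at h1
  apply Fin.ext
  have ha := a.isLt
  have hb := b.isLt
  have hp := p.isLt
  split_ifs at h1 <;> omega

lemma rot_rr {k : ℕ} (d : Fin k → Bool) (p i : Fin k) : rot d p (rr p i) = d i := by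
  have hi := i.isLt
  have hp := p.isLt
  have hv := rr_val p i
  unfold rot
  by_cases h : p.val ≤ i.val
  · rw [if_pos h] at hv
    rw [dif_pos (show (rr p i).val + p.val < k by omega)]
    congr 1
    apply Fin.ext
    show (rr p i).val + p.val = i.val
    omega
  · rw [if_neg h] at hv
    rw [dif_neg (show ¬ (rr p i).val + p.val < k by omega)]
    congr 1
    apply Fin.ext
    show (rr p i).val + p.val - k = i.val
    omega

lemma rr_next {k : ℕ} (p i j : Fin k) (h : j.val = (i.val + 1) % k) :
    (rr p j).val = ((rr p i).val + 1) % k := by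
  have hi := i.isLt
  have hp := p.isLt
  have hv := rr_val p i
  have hw := rr_val p j
  by_cases h1 : i.val + 1 < k
  · rw [Nat.mod_eq_of_lt h1] at h
    by_cases h2 : p.val ≤ i.val
    · rw [if_pos h2] at hv
      rw [if_pos (show p.val ≤ j.val by omega)] at hw
      rw [Nat.mod_eq_of_lt (by omega)]
      omega
    · rw [if_neg h2] at hv
      by_cases h3 : i.val + 1 = p.val
      · rw [if_pos (show p.val ≤ j.val by omega)] at hw
        have h4 : (rr p i).val + 1 = k := by omega
        rw [h4, Nat.mod_self]
        omega
      · rw [if_neg (show ¬ p.val ≤ j.val by omega)] at hw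
        rw [Nat.mod_eq_of_lt (by omega)]
        omega
  · have h2 : i.val + 1 = k := by omega
    rw [h2, Nat.mod_self] at h
    rw [if_pos (show p.val ≤ i.val by omega)] at hv
    by_cases h3 : p.val = 0
    · rw [if_pos (show p.val ≤ j.val by omega)] at hw
      have h4 : (rr p i).val + 1 = k := by omega
      rw [h4, Nat.mod_self]
      omega
    · rw [if_neg (show ¬ p.val ≤ j.val by omega)] at hw
      rw [Nat.mod_eq_of_lt (by omega)]
      omega

theorem t_ROT : S_ROT := by
  intro k hk d hd
  haveI : Nonempty (Fin k) := ⟨⟨0, hk⟩⟩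
  obtain ⟨p, _, hmax⟩ := Finset.exists_max_image (Finset.univ : Finset (Fin k))
    (fun p => (k : ℤ) * ht d p.val - 2 * (p.val : ℤ)) Finset.univ_nonempty
  have hp := p.isLt
  have hkz : (0 : ℤ) < k := by exact_mod_cast hk
  refine ⟨rot d p, ?_, ?_, ?_⟩
  · intro j hj
    obtain ⟨h1, h2⟩ := ht_rot d p hd j hj.le
    have hjz : (j : ℤ) < k := by exact_mod_cast hj
    by_cases h : p.val + j < k
    · rw [h1 h.le]
      have h3 := hmax ⟨p.val + j, h⟩ (Finset.mem_univ _)
      simp only at h3
      push_cast at h3
      by_contra h4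
      push Not at h4
      have h5 : (2 : ℤ) ≤ ht d (p.val + j) - ht d p.val := h4
      nlinarith
    · rw [h2 (by omega)]
      have h3 := hmax ⟨p.val + j - k, by omega⟩ (Finset.mem_univ _)
      simp only at h3
      have h6 : ((p.val + j - k : ℕ) : ℤ) = (p.val : ℤ) + j - k := by
        rw [Nat.cast_sub (by omega)]
        push_cast
        ring
      rw [h6] at h3
      by_contra h4
      push Not at h4
      have h5 : (2 : ℤ) ≤ ht d (p.val + j - k) + 2 - ht d p.val := h4
      nlinarith
  · rw [← ht_full]
    rw [(ht_rot d p hd k le_rfl).2 (by omega), Nat.add_sub_cancel]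
    ring
  · intro V R f' hf'
    refine ⟨fun i => f' (rr p i), ?_, ?_⟩
    · intro i j hij
      have h := hf' (rr p i) (rr p j) (rr_next p i j hij)
      rw [rot_rr] at h
      exact h
    · intro y
      exact Function.Bijective.sum_comp
        ((Finite.injective_iff_bijective).1 (rr_inj p)) (fun i => y (f' i))

end Pool.Agent.W287.N2
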